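import Pool.Agent.U351.CH.Gen

/-!
Smooth cubic hypersurfaces: families of odd degree over lines and cubic maps of odd degree give
linear subspaces whose projection has a rational section.
-/

set_option autoImplicit false

namespace Pool.Agent.U351.CH

open MvPolynomial Pool.Agent.TH314.PD IntermediateField Module Pool.Agent.R845.E3
open Pool.Agent.Y201.C3 Pool.Agent.N150.CF

noncomputable section

variable {k m N : ℕ}

/-- the basis vectors of the linear subspace in the original coordinates -/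
def bs (σ : Fin (k + 1 + (m + 1)) ≃ Fin N) (U : Fin (k + 1) → Fin (m + 1) → ℂ) :
    Fin (k + 1) → Fin N → ℂ := fun a => orig σ U (Pi.single (Fin.castAdd (m + 1) a) 1)

theorem bs_sum (σ : Fin (k + 1 + (m + 1)) ≃ Fin N) (U : Fin (k + 1) → Fin (m + 1) → ℂ)
    (a : Fin (k + 1) → ℂ) : ∑ l, a l • bs σ U l = orig σ U (Fin.append a 0) := by
  rw [append_single, map_sum]
  exact Finset.sum_congr rfl fun l _ => by rw [map_smul]; rfl

theorem bs_li (σ : Fin (k + 1 + (m + 1)) ≃ Fin N) (U : Fin (k + 1) → Fin (m + 1) → ℂ) :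
    LinearIndependent ℂ (bs σ U) := by
  rw [Fintype.linearIndependent_iff]
  intro g hg i
  rw [bs_sum] at hg
  have h1 := congrFun hg (σ (Fin.castAdd (m + 1) i))
  rwa [orig_left, Fin.append_left] at h1

theorem bs_lin {F : MvPolynomial (Fin N) ℂ} (σ : Fin (k + 1 + (m + 1)) ≃ Fin N)
    (U : Fin (k + 1) → Fin (m + 1) → ℂ) (hW : VanW (shear U (rename σ.symm F))) :
    Lin F (bs σ U) :=
  ⟨bs_li σ U, van_og σ U hW⟩

/-- **From adapted coordinates to sections.** -/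
theorem sec_of_iso {n : ℕ} (hn : 3 ≤ n) {F : MvPolynomial (Fin (n + 2)) ℂ}
    (hF : F.IsHomogeneous 3) (hsm : Sm F) (σ : Fin (k + 1 + (m + 1)) ≃ Fin (n + 2))
    (U : Fin (k + 1) → Fin (m + 1) → ℂ) (hW : VanW (shear U (rename σ.symm F)))
    (hiso : Iso (shear U (rename σ.symm F))) :
    k + m = n ∧ 1 ≤ k ∧ k ≤ m ∧ Lin F (bs σ U) ∧ Sec m F (bs σ U) := by
  have hkm : k + m = n := by
    have h1 := Fintype.card_congr σ
    rw [Fintype.card_fin, Fintype.card_fin] at h1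
    omega
  have hF1h : (rename σ.symm F).IsHomogeneous 3 := hF.rename_isHomogeneous
  have hF2h := shear_hom hF1h U
  have hF2s := sm_shear (sm_rename σ.symm hsm) U
  have hle := le_of_smooth hF2h hF2s hW
  have hk : 1 ≤ k := by
    by_contra hk
    obtain rfl : k = 0 := by omega
    exact no_iso0 (by omega) hF2h hF2s hW hiso
  refine ⟨hkm, hk, hle, bs_lin σ U hW, ?_⟩
  obtain ⟨c, l, hl, hx⟩ := iso_sec hF2h hF2s hW hiso
  have h1 : Fib F (bs σ U) 1 := fib_og hF σ U (par_fib hk hF2h hF2s hW c l hl hx)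
  have hN : n + 2 = k + 1 + (m + 1) := by omega
  have key : ∀ (N : ℕ) (hN : N = k + 1 + (m + 1)) (F : MvPolynomial (Fin N) ℂ)
      (v : Fin (k + 1) → Fin N → ℂ), F.IsHomogeneous 3 → Sm F → Lin F v → Lr F v 1 →
      Sec m F v := by
    rintro N rfl F v hF hsm hv h
    exact sec_of_lr hF hsm hv odd_one h
  exact key _ hN F _ hF hsm (bs_lin σ U hW) h1.lr

/-- **Families over lines.** -/
theorem of_lr {n : ℕ} (hn : 3 ≤ n) {F : MvPolynomial (Fin (n + 2)) ℂ}
    (hF : F.IsHomogeneous 3) (hsm : Sm F) {r : ℕ} (A : Fin r → Fin (n + 2) → ℂ)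
    (hA : ∀ a : Fin r → ℂ, eval (fun i => ∑ l, a l * A l i) F = 0) {d : ℕ} (hd : Odd d)
    (h : Lr F A d) :
    ∃ (k m : ℕ) (v : Fin (k + 1) → Fin (n + 2) → ℂ), k + m = n ∧ 1 ≤ k ∧ k ≤ m ∧ Lin F v ∧
      (∀ l, A l ∈ Submodule.span ℂ (Set.range v)) ∧ Sec m F v := by
  classical
  have hF0 : F ≠ 0 := ne_zero_of_smooth (m := n + 1) hsm
  obtain ⟨M, _, _, L, t, x, s, w, β, γ, ht, htop, hG, hdd, hβ, hγ, hx⟩ := h
  obtain ⟨k, m, σ, U, hW, hU, hiso⟩ := sections_iso1 spr desc hF hsm hF0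
    (fun i l => A l i) hA L t ht htop x hG (by rw [hdd]; exact hd) s w β γ hβ hγ hx
  obtain ⟨h1, h2, h3, h4, h5⟩ := sec_of_iso hn hF hsm σ U hW hiso
  refine ⟨k, m, bs σ U, h1, h2, h3, h4, fun l => ?_, h5⟩
  have hvo : A l = orig σ U (Fin.append (fun i => A l (σ (Fin.castAdd (m + 1) i))) 0) := by
    funext i
    obtain ⟨i', rfl⟩ := σ.surjective i
    refine Fin.addCases (fun j => ?_) (fun j => ?_) i'
    · rw [orig_left, Fin.append_left]
    · rw [orig_right, Fin.append_right, Pi.zero_apply, zero_add, hU]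
      exact Finset.sum_congr rfl fun i _ => by rw [Fin.append_left]
  rw [hvo, ← bs_sum]
  exact Submodule.sum_mem _ fun a _ => Submodule.smul_mem _ _ (Submodule.subset_span ⟨a, rfl⟩)

/-- **Cubic maps of odd degree.** -/
theorem of_cub {n : ℕ} (hn : 3 ≤ n) {F : MvPolynomial (Fin (n + 2)) ℂ}
    (hF : F.IsHomogeneous 3) (hsm : Sm F) (G : Fin (n + 2) → MvPolynomial (Fin n) ℂ)
    (hG : ∀ i, (G i).totalDegree ≤ 3) (hFG : aeval G F = 0)
    (hdom : ∀ e (H : MvPolynomial (Fin (n + 2)) ℂ), H.IsHomogeneous e → aeval G H = 0 → F ∣ H)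
    (hodd : Odd (finrank (ratioField fun i =>
      algebraMap (MvPolynomial (Fin n) ℂ) (Rn n) (G i)) (Rn n))) :
    ∃ (k m : ℕ) (v : Fin (k + 1) → Fin (n + 2) → ℂ), k + m = n ∧ 1 ≤ k ∧ k ≤ m ∧ Lin F v ∧
      Sec m F v := by
  classical
  let al : MvPolynomial (Fin n) ℂ →ₐ[ℂ] Rn n := IsScalarTower.toAlgHom ℂ _ _
  have hal : Function.Injective al := IsFractionRing.injective (MvPolynomial (Fin n) ℂ) _
  have halG : ∀ P : MvPolynomial (Fin (n + 2)) ℂ,
      aeval (fun i => algebraMap (MvPolynomial (Fin n) ℂ) (Rn n) (G i)) P = al (aeval G P) := by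
    intro P
    rw [comp_aeval_apply]
    rfl
  have hgp : Gp F (fun i => algebraMap (MvPolynomial (Fin n) ℂ) (Rn n) (G i)) := by
    refine ⟨by rw [halG, hFG, map_zero], fun e P hP h0 => hdom e P hP (hal ?_)⟩
    rw [← halG, h0, map_zero]
  obtain ⟨k, m, σ, U, -, hW, hiso⟩ := cub_iso (cc spr desc) bas con hn hF hsm G hG hgp hodd
  obtain ⟨h1, h2, h3, h4, h5⟩ := sec_of_iso hn hF hsm σ U hW hiso
  exact ⟨k, m, bs σ U, h1, h2, h3, h4, h5⟩

end

end Pool.Agent.U351.CH
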