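import Pool.Agent.N150.CF.Fin4

/-!
Families of odd degree over lines, rational sections and birational parametrizations, for smooth
cubic hypersurfaces of every dimension (generalizes `Pool.Agent.N150.CF.Cls` and `Fin4`).
-/

set_option autoImplicit false

namespace Pool.Agent.U351.CH

open MvPolynomial Pool.Agent.TH314.PD IntermediateField Module Pool.Agent.R845.E3
open Pool.Agent.Y201.C3 Pool.Agent.N150.CF

noncomputable section

variable {k m N : ℕ}

/-- the linear combination `∑ c_a v_a + e_0 + ∑ X_j e_{j+1}` -/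
def pnt (v : Fin (k + 1) → Fin N → ℂ) (e : Fin (m + 1) → Fin N → ℂ) (c : Fin (k + 1) → Rn m) :
    Fin N → Rn m := fun i =>
  ∑ a, c a * algebraMap ℂ (Rn m) (v a i) + (algebraMap ℂ (Rn m) (e 0 i) +
    ∑ j : Fin m, algebraMap (MvPolynomial (Fin m) ℂ) (Rn m) (X j) *
      algebraMap ℂ (Rn m) (e j.succ i))

/-- The projection from the span of `v` has a rational section. -/
def Sec (m : ℕ) (F : MvPolynomial (Fin N) ℂ) (v : Fin (k + 1) → Fin N → ℂ) : Prop :=
  ∃ e : Fin (m + 1) → Fin N → ℂ, LinearIndependent ℂ (Fin.append v e) ∧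
    ∃ c : Fin (k + 1) → Rn m, aeval (pnt v e c) F = 0

/-- a linear subspace in the hypersurface -/
def Lin (F : MvPolynomial (Fin N) ℂ) (v : Fin (k + 1) → Fin N → ℂ) : Prop :=
  LinearIndependent ℂ v ∧ ∀ b : Fin (k + 1) → ℂ, eval (fun i => ∑ l, b l * v l i) F = 0

/-- completion to a basis -/
theorem compl {v : Fin (k + 1) → Fin (k + 1 + (m + 1)) → ℂ} (hv : LinearIndependent ℂ v) :
    ∃ e : Fin (m + 1) → Fin (k + 1 + (m + 1)) → ℂ, LinearIndependent ℂ (Fin.append v e) := by
  classical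
  set W : Submodule ℂ (Fin (k + 1 + (m + 1)) → ℂ) := Submodule.span ℂ (Set.range v) with hW
  obtain ⟨W', hW'⟩ := W.exists_isCompl
  have h1 : finrank ℂ W = k + 1 := by
    rw [hW, finrank_span_eq_card hv, Fintype.card_fin]
  have h2 : finrank ℂ W' = m + 1 := by
    have h3 := Submodule.finrank_add_eq_of_isCompl hW'
    rw [h1, Module.finrank_fin_fun] at h3
    omega
  let b := Module.finBasisOfFinrankEq ℂ W' h2
  refine ⟨fun j => (b j : Fin (k + 1 + (m + 1)) → ℂ), ?_⟩
  have hb : LinearIndependent ℂ (fun j => (b j : Fin (k + 1 + (m + 1)) → ℂ)) := by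
    have h3 := b.linearIndependent.map' W'.subtype (Submodule.ker_subtype _)
    exact h3
  have hsb : Submodule.span ℂ (Set.range fun j => (b j : Fin (k + 1 + (m + 1)) → ℂ)) ≤ W' := by
    rw [Submodule.span_le]
    rintro _ ⟨j, rfl⟩
    exact (b j).2
  have hdis : Disjoint (Submodule.span ℂ (Set.range v))
      (Submodule.span ℂ (Set.range fun j => (b j : Fin (k + 1 + (m + 1)) → ℂ))) :=
    hW'.disjoint.mono_right hsb
  have h4 := hv.sum_type hb hdis
  have h5 : (Fin.append v fun j => (b j : Fin (k + 1 + (m + 1)) → ℂ)) =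
      (Sum.elim v fun j => (b j : Fin (k + 1 + (m + 1)) → ℂ)) ∘ finSumFinEquiv.symm := by
    funext i
    refine Fin.addCases (fun j => ?_) (fun j => ?_) i
    · rw [Fin.append_left, Function.comp_apply, finSumFinEquiv_symm_apply_castAdd, Sum.elim_inl]
    · rw [Fin.append_right, Function.comp_apply, finSumFinEquiv_symm_apply_natAdd, Sum.elim_inr]
  rw [h5]
  exact h4.comp _ finSumFinEquiv.symm.injective

/-- the matrix of adapted coordinates -/
theorem adapt {F : MvPolynomial (Fin (k + 1 + (m + 1))) ℂ}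
    {v : Fin (k + 1) → Fin (k + 1 + (m + 1)) → ℂ} {e : Fin (m + 1) → Fin (k + 1 + (m + 1)) → ℂ}
    (hvF : ∀ b : Fin (k + 1) → ℂ, eval (fun i => ∑ l, b l * v l i) F = 0)
    (hli : LinearIndependent ℂ (Fin.append v e)) :
    ∃ B C : Matrix (Fin (k + 1 + (m + 1))) (Fin (k + 1 + (m + 1))) ℂ, B * C = 1 ∧ C * B = 1 ∧
      (∀ a, B (Fin.castAdd (m + 1) a) = v a) ∧ (∀ a, B (Fin.natAdd (k + 1) a) = e a) ∧
      (∀ {R : Type} [CommRing R] [Algebra ℂ R] (u : Fin (k + 1) → R) (w : Fin (m + 1) → R)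
        (i : Fin (k + 1 + (m + 1))), lc (fun s => B s) (Fin.append u w) i =
        ∑ a, u a * algebraMap ℂ R (v a i) + ∑ a, w a * algebraMap ℂ R (e a i)) ∧
      VanW (sub B F) := by
  classical
  let B : Matrix (Fin (k + 1 + (m + 1))) (Fin (k + 1 + (m + 1))) ℂ := Matrix.of (Fin.append v e)
  have hBrow : B.row = Fin.append v e := rfl
  have hu : IsUnit B := by
    rw [← Matrix.linearIndependent_rows_iff_isUnit, hBrow]
    exact hli
  obtain ⟨u, hu⟩ := hu
  let C : Matrix (Fin (k + 1 + (m + 1))) (Fin (k + 1 + (m + 1))) ℂ := ↑u⁻¹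
  have hCB : C * B = 1 := by
    rw [← hu]
    exact Units.inv_mul u
  have hBC : B * C = 1 := mul_eq_one_comm.1 hCB
  have hBl : ∀ a, B (Fin.castAdd (m + 1) a) = v a := fun a => Fin.append_left v e a
  have hBr : ∀ a, B (Fin.natAdd (k + 1) a) = e a := fun a => Fin.append_right v e a
  have hlc : ∀ {R : Type} [CommRing R] [Algebra ℂ R] (u : Fin (k + 1) → R) (w : Fin (m + 1) → R)
      (i : Fin (k + 1 + (m + 1))), lc (fun s => B s) (Fin.append u w) i =
      ∑ a, u a * algebraMap ℂ R (v a i) + ∑ a, w a * algebraMap ℂ R (e a i) := by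
    intro R _ _ u w i
    unfold lc
    rw [Fin.sum_univ_add]
    simp only [Fin.append_left, Fin.append_right, hBl, hBr]
  refine ⟨B, C, hBC, hCB, hBl, hBr, hlc, ?_⟩
  unfold VanW
  apply MvPolynomial.funext
  intro a
  rw [map_zero, ← aeval_eq_eval, comp_aeval_apply]
  have h1 : (fun i => aeval a ((Fin.append (X : Fin (k + 1) → MvPolynomial (Fin (k + 1)) ℂ)
      (0 : Fin (m + 1) → MvPolynomial (Fin (k + 1)) ℂ)) i)) = Fin.append a 0 := by
    funext i
    refine Fin.addCases (fun i => ?_) (fun j => ?_) i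
    · rw [Fin.append_left, Fin.append_left, aeval_X]
    · rw [Fin.append_right, Fin.append_right, Pi.zero_apply, map_zero, Pi.zero_apply]
  rw [h1, aeval_sub, aeval_eq_eval]
  have h2 : lc (fun s => B s) (Fin.append a (0 : Fin (m + 1) → ℂ)) =
      fun i => ∑ l, a l * v l i := by
    funext i
    rw [hlc]
    simp
  rw [h2]
  exact hvF a

/-- the pullback of a generic point -/
theorem gp_back {M : Type} [Field M] [Algebra ℂ M] {B C : Matrix (Fin N) (Fin N) ℂ}
    (hBC : B * C = 1) {F : MvPolynomial (Fin N) ℂ} {x : Fin N → M} (h : Gp F x) :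
    Gp (sub B F) (lc (fun s => C s) x) := by
  have hCB : C * B = 1 := mul_eq_one_comm.1 hBC
  refine gp_lc (B := C) (C := B) hBC ?_
  rw [sub_sub, hCB, sub_one]
  exact h

/-- value of `xa` after the embedding into the field of rational functions -/
theorem xa_eq (c' : Fin (k + 1) → MvPolynomial (Fin m) ℂ) (l : MvPolynomial (Fin m) ℂ) :
    (fun i => algebraMap (MvPolynomial (Fin m) ℂ) (Rn m) (Rat.xa c' l i)) =
      Fin.append (fun a => algebraMap (MvPolynomial (Fin m) ℂ) (Rn m) (c' a))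
        (fun j => algebraMap (MvPolynomial (Fin m) ℂ) (Rn m) (l * yv ℂ m j)) := by
  funext i
  refine Fin.addCases (fun a => ?_) (fun j => ?_) i
  · rw [Fin.append_left]
    congr 1
    exact Fin.append_left _ _ _
  · rw [Fin.append_right]
    congr 1
    exact Fin.append_right _ _ _

/-- the linear combination in adapted coordinates -/
theorem lc_xa {v : Fin (k + 1) → Fin (k + 1 + (m + 1)) → ℂ}
    {e : Fin (m + 1) → Fin (k + 1 + (m + 1)) → ℂ}
    {B : Matrix (Fin (k + 1 + (m + 1))) (Fin (k + 1 + (m + 1))) ℂ}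
    (hlc : ∀ {R : Type} [CommRing R] [Algebra ℂ R] (u : Fin (k + 1) → R) (w : Fin (m + 1) → R)
        (i : Fin (k + 1 + (m + 1))), lc (fun s => B s) (Fin.append u w) i =
        ∑ a, u a * algebraMap ℂ R (v a i) + ∑ a, w a * algebraMap ℂ R (e a i))
    (c : Fin (k + 1) → Rn m) (c' : Fin (k + 1) → MvPolynomial (Fin m) ℂ)
    (l : MvPolynomial (Fin m) ℂ)
    (hc : ∀ a, algebraMap (MvPolynomial (Fin m) ℂ) (Rn m) (c' a) =
      algebraMap (MvPolynomial (Fin m) ℂ) (Rn m) l * c a) :
    lc (fun s => B s) (fun i => algebraMap (MvPolynomial (Fin m) ℂ) (Rn m) (Rat.xa c' l i)) =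
      fun i => algebraMap (MvPolynomial (Fin m) ℂ) (Rn m) l * pnt v e c i := by
  funext i
  rw [xa_eq, hlc]
  simp only [hc, map_mul]
  unfold pnt
  rw [mul_add, Finset.mul_sum]
  congr 1
  · exact Finset.sum_congr rfl fun a _ => by ring
  · rw [Fin.sum_univ_succ, mul_add, Finset.mul_sum]
    congr 1
    · have h4 : algebraMap (MvPolynomial (Fin m) ℂ) (Rn m) (yv ℂ m 0) = 1 := by
        unfold yv
        rw [Fin.cons_zero, map_one]
      rw [h4, mul_one]
    · refine Finset.sum_congr rfl fun j _ => ?_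
      have h5 : yv ℂ m j.succ = X j := by
        unfold yv
        rw [Fin.cons_succ]
      rw [h5, mul_assoc]

/-- **From families to sections.** -/
theorem sec_of_lr {F : MvPolynomial (Fin (k + 1 + (m + 1))) ℂ} (hF : F.IsHomogeneous 3)
    (hsm : Sm F) {v : Fin (k + 1) → Fin (k + 1 + (m + 1)) → ℂ} (hv : Lin F v) {d : ℕ}
    (hd : Odd d) (h : Lr F v d) : Sec m F v := by
  classical
  obtain ⟨hli, hvF⟩ := hv
  obtain ⟨e, he⟩ := compl (m := m) hli
  obtain ⟨B, C, hBC, hCB, hBl, hBr, hlc, hW⟩ := adapt hvF he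
  obtain ⟨M, _, _, L, t, x, s, w, β, γ, ht, htop, hG, hdd, hβ, hγ, hx⟩ := h
  have hF2h := sub_hom B hF
  have hF2s := sm_sub hBC hsm
  -- the point in adapted coordinates
  have hG2 : Gp (sub B F) (lc (fun s => C s) x) := gp_back hBC hG
  have hn1 : ∀ i, x i ≠ 0 := Pool.Agent.R845.T2.coord_ne_zero hF (by norm_num) _ hG.2
  have hr : ratioField (lc (fun s => C s) x) = ratioField x :=
    ratioField_lc hCB x ⟨Fin.castAdd (m + 1) 0, hn1 _⟩
  have hvC : ∀ a, lc (fun s => C s) (v a) = Pi.single (Fin.castAdd (m + 1) a) (1 : ℂ) := by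
    intro a
    have h1 : v a = lc (fun s => B s) (Pi.single (Fin.castAdd (m + 1) a) (1 : ℂ)) := by
      funext i
      unfold lc
      rw [Finset.sum_eq_single (Fin.castAdd (m + 1) a)]
      · rw [Pi.single_eq_same, one_mul, ← hBl]
        rfl
      · intro s _ hs
        rw [Pi.single_eq_of_ne hs, zero_mul]
      · intro h
        exact absurd (Finset.mem_univ _) h
    rw [h1, lc_lc, hBC, lc_one]
  have hlin : ∀ i, lc (fun s => C s) x i = s * (t * lc (fun s => C s) β i +
      lc (fun s => C s) γ i) + ∑ l, w l * algebraMap ℂ M (lc (fun s => C s) (v l) i) := by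
    intro i
    have h1 : ∀ l, algebraMap ℂ M (lc (fun s => C s) (v l) i) =
        ∑ u, algebraMap ℂ M (v l u) * algebraMap ℂ M (C u i) := by
      intro l
      unfold lc
      rw [map_sum]
      exact Finset.sum_congr rfl fun u _ => by
        rw [map_mul, Algebra.algebraMap_self, RingHom.id_apply]
    simp only [h1]
    unfold lc
    simp only [hx, add_mul, mul_add, Finset.sum_add_distrib, Finset.mul_sum, Finset.sum_mul]
    congr 1
    · congr 1
      · exact Finset.sum_congr rfl fun u _ => by ring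
      · exact Finset.sum_congr rfl fun u _ => by ring
    · rw [Finset.sum_comm]
      refine Finset.sum_congr rfl fun l _ => Finset.sum_congr rfl fun u _ => by ring
  have hmem : ∀ z : Fin (k + 1 + (m + 1)) → M, (∀ i, z i ∈ L) → ∀ i,
      lc (fun s => C s) z i ∈ L := by
    intro z hz i
    unfold lc
    exact sum_mem fun u _ => mul_mem (hz u) (L.algebraMap_mem _)
  have hiso : Iso (sub B F) := by
    refine sec_iso spr desc hF2h hF2s hW L t ht htop (lc (fun s => C s) x) hG2 ?_ s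
      (fun j => lc (fun s => C s) β (Fin.natAdd (k + 1) j))
      (fun j => lc (fun s => C s) γ (Fin.natAdd (k + 1) j))
      (fun j => hmem β hβ _) (fun j => hmem γ hγ _) (fun j => ?_)
    · rw [hr, hdd]
      exact hd
    · rw [hlin, Finset.sum_eq_zero, add_zero]
      intro l _
      rw [hvC, Pi.single_eq_of_ne, map_zero, mul_zero]
      intro h5
      have h6 := congrArg Fin.val h5
      simp only [Fin.val_natAdd, Fin.val_castAdd] at h6
      omega
  obtain ⟨c', l, hl, hcl⟩ := iso_sec hF2h hF2s hW hiso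
  set al : MvPolynomial (Fin m) ℂ →ₐ[ℂ] Rn m :=
    IsScalarTower.toAlgHom ℂ (MvPolynomial (Fin m) ℂ) (Rn m) with hal
  have hinj : Function.Injective al := IsFractionRing.injective (MvPolynomial (Fin m) ℂ) _
  have hl' : al l ≠ 0 := fun h => hl (hinj (h.trans (map_zero _).symm))
  refine ⟨e, he, fun a => (al l)⁻¹ * al (c' a), ?_⟩
  have h1 := congrArg al hcl
  rw [map_zero, comp_aeval_apply, aeval_sub] at h1
  have h2 := lc_xa (B := B) (v := v) (e := e) hlc (fun a => (al l)⁻¹ * al (c' a)) c' l (fun a => by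
    change al (c' a) = al l * ((al l)⁻¹ * al (c' a))
    rw [mul_inv_cancel_left₀ hl'])
  have h3 : aeval (fun i => al l * pnt v e (fun a => (al l)⁻¹ * al (c' a)) i) F = 0 := by
    rw [← h1]
    exact congrArg (fun y => aeval y F) h2.symm
  rw [aeval_smul_form hF] at h3
  exact (mul_eq_zero.1 h3).resolve_left (pow_ne_zero _ hl')

/-- common denominators -/
theorem com (c : Fin (k + 1) → Rn m) : ∃ (c' : Fin (k + 1) → MvPolynomial (Fin m) ℂ)
    (l : MvPolynomial (Fin m) ℂ), l ≠ 0 ∧ ∀ a, algebraMap (MvPolynomial (Fin m) ℂ) (Rn m) (c' a) =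
      algebraMap (MvPolynomial (Fin m) ℂ) (Rn m) l * c a := by
  obtain ⟨b, hb⟩ := IsLocalization.exist_integer_multiples_of_finite
    (nonZeroDivisors (MvPolynomial (Fin m) ℂ)) c
  choose c' hc' using hb
  refine ⟨c', b, nonZeroDivisors.ne_zero b.2, fun a => ?_⟩
  rw [hc' a, Algebra.smul_def]

/-- a section in adapted coordinates -/
theorem sec_adapt {F : MvPolynomial (Fin (k + 1 + (m + 1))) ℂ} (hF : F.IsHomogeneous 3)
    {v : Fin (k + 1) → Fin (k + 1 + (m + 1)) → ℂ} {e : Fin (m + 1) → Fin (k + 1 + (m + 1)) → ℂ}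
    {B : Matrix (Fin (k + 1 + (m + 1))) (Fin (k + 1 + (m + 1))) ℂ}
    (hlc : ∀ {R : Type} [CommRing R] [Algebra ℂ R] (u : Fin (k + 1) → R) (w : Fin (m + 1) → R)
        (i : Fin (k + 1 + (m + 1))), lc (fun s => B s) (Fin.append u w) i =
        ∑ a, u a * algebraMap ℂ R (v a i) + ∑ a, w a * algebraMap ℂ R (e a i))
    {c : Fin (k + 1) → Rn m} (hc : aeval (pnt v e c) F = 0) :
    ∃ (c' : Fin (k + 1) → MvPolynomial (Fin m) ℂ) (l : MvPolynomial (Fin m) ℂ), l ≠ 0 ∧
        aeval (Rat.xa c' l) (sub B F) = 0 := by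
  obtain ⟨c', l, hl, hcl⟩ := com c
  set al : MvPolynomial (Fin m) ℂ →ₐ[ℂ] Rn m :=
    IsScalarTower.toAlgHom ℂ (MvPolynomial (Fin m) ℂ) (Rn m) with hal
  have hinj : Function.Injective al := IsFractionRing.injective (MvPolynomial (Fin m) ℂ) _
  refine ⟨c', l, hl, hinj ?_⟩
  rw [map_zero, comp_aeval_apply, aeval_sub]
  have h2 := lc_xa (B := B) (v := v) (e := e) hlc c c' l hcl
  refine (congrArg (fun y => aeval y F) h2).trans ?_
  rw [aeval_smul_form hF, hc, mul_zero]

/-- **From sections to families.** -/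
theorem fib_of_sec (hk : 1 ≤ k) {F : MvPolynomial (Fin (k + 1 + (m + 1))) ℂ}
    (hF : F.IsHomogeneous 3) (hsm : Sm F) {v : Fin (k + 1) → Fin (k + 1 + (m + 1)) → ℂ}
    (hv : Lin F v) (h : Sec m F v) : Fib F v 1 := by
  classical
  obtain ⟨e, hli, c, hc⟩ := h
  obtain ⟨-, hvF⟩ := hv
  obtain ⟨B, C, hBC, hCB, hBl, hBr, hlc, hW⟩ := adapt hvF hli
  obtain ⟨c', l, hl, hx⟩ := sec_adapt hF hlc hc
  have hF2h := sub_hom B hF
  have hF2s := sm_sub hBC hsm
  have h1 := par_fib hk hF2h hF2s hW c' l hl hx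
  have h2 := fib_lc hCB (by omega) hF h1
  have h3 : (fun l => lc (fun s => B s) (Pi.single (Fin.castAdd (m + 1) l) 1 :
      Fin (k + 1 + (m + 1)) → ℂ)) = v := by
    funext l
    rw [← hBl l]
    funext i
    unfold lc
    rw [Finset.sum_eq_single (Fin.castAdd (m + 1) l)]
    · rw [Pi.single_eq_same, one_mul]
      rfl
    · intro s _ hs
      rw [Pi.single_eq_of_ne hs, zero_mul]
    · intro h
      exact absurd (Finset.mem_univ _) h
  rw [← h3]
  exact h2

/-- **The birational parametrization**, in the fibres of the projection. -/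
theorem par_of_sec (hkm : 1 ≤ k + m) {F : MvPolynomial (Fin (k + 1 + (m + 1))) ℂ}
    (hF : F.IsHomogeneous 3) (hsm : Sm F) {v : Fin (k + 1) → Fin (k + 1 + (m + 1)) → ℂ}
    (hv : Lin F v) (h : Sec m F v) :
    ∃ (e : Fin (m + 1) → Fin (k + 1 + (m + 1)) → ℂ)
      (G : Fin (k + 1 + (m + 1)) → MvPolynomial (Fin (k + m)) ℂ)
      (g : MvPolynomial (Fin (k + m)) ℂ) (w : Fin (k + 1) → MvPolynomial (Fin (k + m)) ℂ),
      LinearIndependent ℂ (Fin.append v e) ∧
      Gp F (fun i => algebraMap (MvPolynomial (Fin (k + m)) ℂ) (Rn (k + m)) (G i)) ∧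
      (ratioField fun i => algebraMap (MvPolynomial (Fin (k + m)) ℂ) (Rn (k + m)) (G i)) = ⊤ ∧
      ∀ i, G i = g * (C (e 0 i) + ∑ j : Fin m, X (Fin.natAdd k j) * C (e j.succ i)) +
        ∑ a, w a * C (v a i) := by
  classical
  obtain ⟨e, hli, c, hc⟩ := h
  obtain ⟨-, hvF⟩ := hv
  obtain ⟨B, C', hBC, hCB, hBl, hBr, hlc, hW⟩ := adapt hvF hli
  obtain ⟨c', l, hl, hx⟩ := sec_adapt hF hlc hc
  have hF2h := sub_hom B hF
  have hF2s := sm_sub hBC hsm
  obtain ⟨G, h1, h2, g, h3⟩ := par hkm hF2h hF2s hW c' l hl hx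
  have hmap : (fun i => algebraMap (MvPolynomial (Fin (k + m)) ℂ) (Rn (k + m))
      (lc (fun s => B s) G i)) =
      lc (fun s => B s) (fun i => algebraMap (MvPolynomial (Fin (k + m)) ℂ) (Rn (k + m))
        (G i)) := by
    funext i
    unfold lc
    rw [map_sum]
    refine Finset.sum_congr rfl fun s _ => ?_
    rw [map_mul, ← IsScalarTower.algebraMap_apply]
  refine ⟨e, lc (fun s => B s) G, g, fun a => G (Fin.castAdd (m + 1) a), hli, ?_, ?_,
    fun i => ?_⟩
  · rw [hmap]
    exact gp_lc hCB h1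
  · rw [hmap, ratioField_lc hBC _ ⟨Fin.castAdd (m + 1) 0,
      Pool.Agent.R845.T2.coord_ne_zero hF2h (by norm_num) _ h1.2 _⟩]
    exact h2
  · have h4 : lc (fun s => B s) G i =
        ∑ a, G (Fin.castAdd (m + 1) a) * C (v a i) +
        ∑ a, G (Fin.natAdd (k + 1) a) * C (e a i) := by
      unfold lc
      rw [Fin.sum_univ_add]
      simp only [hBl, hBr]
      rfl
    have h6 : Rat.rh k m (yv ℂ m 0) = 1 := by
      unfold yv
      rw [Fin.cons_zero, map_one]
    have h7 : ∀ j : Fin m, Rat.rh k m (yv ℂ m j.succ) = X (Fin.natAdd k j) := by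
      intro j
      unfold yv Rat.rh
      rw [Fin.cons_succ, rename_X]
    have h8 : ∑ a, G (Fin.natAdd (k + 1) a) * C (e a i) =
        g * (C (e 0 i) + ∑ j : Fin m, X (Fin.natAdd k j) * C (e j.succ i)) := by
      rw [Fin.sum_univ_succ (f := fun a => G (Fin.natAdd (k + 1) a) * C (e a i)), h3, h6,
        mul_one, mul_add, Finset.mul_sum]
      congr 1
      refine Finset.sum_congr rfl fun j _ => ?_
      rw [h3, h7, mul_assoc]
    rw [h4, h8]
    exact add_comm _ _

end

end Pool.Agent.U351.CH
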